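import Mathlib

set_option autoImplicit false

namespace Pool.Agent.Y768.KC

open MvPolynomial

abbrev LauL (N : ℕ) : Type := AddMonoidAlgebra ℂ (Fin N → ℤ)

noncomputable def laurL {n : ℕ} (g : MvPolynomial (Fin (n + 1)) ℂ) : LauL n :=
  aeval (Fin.cons (α := fun _ => LauL n) 1
    (fun i => AddMonoidAlgebra.single (Pi.single i 1) (1 : ℂ))) g

/-- the exponent of the dehomogenized monomial -/
def sh {n : ℕ} (c : Fin (n + 1) →₀ ℕ) : Fin n → ℤ := fun i => (c i.succ : ℤ)

variable {n : ℕ}

theorem laurL_mul (A B : MvPolynomial (Fin (n + 1)) ℂ) : laurL (A * B) = laurL A * laurL B := by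
  simp [laurL]

theorem laurL_add (A B : MvPolynomial (Fin (n + 1)) ℂ) : laurL (A + B) = laurL A + laurL B := by
  simp [laurL]

theorem laurL_sub (A B : MvPolynomial (Fin (n + 1)) ℂ) : laurL (A - B) = laurL A - laurL B := by
  simp [laurL]

theorem laurL_pow (A : MvPolynomial (Fin (n + 1)) ℂ) (N : ℕ) : laurL (A ^ N) = laurL A ^ N := by
  simp [laurL]

theorem laurL_X0 : laurL (X 0 : MvPolynomial (Fin (n + 1)) ℂ) = 1 := by
  simp [laurL]

theorem prod_single (f : Fin n → ℕ) :
    ∏ i, (AddMonoidAlgebra.single (Pi.single i 1 : Fin n → ℤ) (1 : ℂ)) ^ f i =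
      (AddMonoidAlgebra.single (fun i => (f i : ℤ)) (1 : ℂ) : LauL n) := by
  have h : ∀ i, (AddMonoidAlgebra.single (Pi.single i 1 : Fin n → ℤ) (1 : ℂ) : LauL n) ^ f i =
      AddMonoidAlgebra.of ℂ (Fin n → ℤ) (Multiplicative.ofAdd (f i • Pi.single i 1)) := by
    intro i
    rw [AddMonoidAlgebra.single_pow, one_pow]
    rfl
  rw [Finset.prod_congr rfl (fun i _ => h i), ← map_prod, ← ofAdd_sum]
  rw [AddMonoidAlgebra.of_apply]
  congr 1
  ext j
  simp [Finset.sum_apply, Pi.single_apply]

theorem laurL_monomial (c : Fin (n + 1) →₀ ℕ) (a : ℂ) :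
    laurL (monomial c a) = AddMonoidAlgebra.single (sh c) a := by
  unfold laurL
  rw [aeval_monomial, Finsupp.prod_fintype _ _ (by simp), Fin.prod_univ_succ]
  simp only [Fin.cons_zero, one_pow, one_mul, Fin.cons_succ]
  rw [prod_single]
  rw [AddMonoidAlgebra.coe_algebraMap]
  simp only [Function.comp_apply, AddMonoidAlgebra.single_mul_single, zero_add, mul_one]
  rfl

theorem sh_inj {c c' : Fin (n + 1) →₀ ℕ} (h : sh c = sh c') (hd : c.degree = c'.degree) :
    c = c' := by
  have h1 : ∀ i : Fin n, c i.succ = c' i.succ := fun i => by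
    have := congrFun h i
    simpa [sh] using this
  rw [Finsupp.degree_eq_sum, Finsupp.degree_eq_sum, Fin.sum_univ_succ, Fin.sum_univ_succ,
    Finset.sum_congr rfl (fun i _ => h1 i)] at hd
  ext i
  refine Fin.cases ?_ (fun i => ?_) i
  · omega
  · exact h1 i

theorem coeff_laurL {A : MvPolynomial (Fin (n + 1)) ℂ} {D : ℕ} (hA : A.IsHomogeneous D)
    {c : Fin (n + 1) →₀ ℕ} (hc : c.degree = D) : (laurL A).coeff (sh c) = coeff c A := by
  classical
  conv_lhs => rw [A.as_sum]
  have : laurL (∑ v ∈ A.support, monomial v (coeff v A)) =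
      ∑ v ∈ A.support, laurL (monomial v (coeff v A)) := by
    unfold laurL
    rw [map_sum]
  rw [this, AddMonoidAlgebra.coeff_sum, Finsupp.finsetSum_apply]
  simp only [laurL_monomial, AddMonoidAlgebra.coeff_single, Finsupp.single_apply]
  rw [Finset.sum_eq_single c]
  · simp
  · intro b hb hbc
    rw [if_neg]
    intro h
    apply hbc
    apply sh_inj h
    rw [hc]
    by_contra h2
    exact (mem_support_iff.1 hb) (hA.coeff_eq_zero h2)
  · intro h
    rw [MvPolynomial.notMem_support_iff] at h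
    simp [h]

theorem laurL_inj {A B : MvPolynomial (Fin (n + 1)) ℂ} {D : ℕ} (hA : A.IsHomogeneous D)
    (hB : B.IsHomogeneous D) (h : laurL A = laurL B) : A = B := by
  ext c
  by_cases hc : c.degree = D
  · rw [← coeff_laurL hA hc, ← coeff_laurL hB hc, h]
  · rw [hA.coeff_eq_zero hc, hB.coeff_eq_zero hc]

theorem laurL_one : laurL (1 : MvPolynomial (Fin (n + 1)) ℂ) = 1 := by
  simp [laurL]

theorem exists_hom (u : LauL n) : ∃ (m : Fin (n + 1) →₀ ℕ) (D : ℕ)
    (U : MvPolynomial (Fin (n + 1)) ℂ), U.IsHomogeneous D ∧ u * laurL (monomial m 1) = laurL U := by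
  induction u using AddMonoidAlgebra.induction_linear with
  | zero => exact ⟨0, 0, 0, isHomogeneous_zero _ _ _, by simp [laurL]⟩
  | add u v hu hv =>
    obtain ⟨m1, D1, U1, h1, e1⟩ := hu
    obtain ⟨m2, D2, U2, h2, e2⟩ := hv
    refine ⟨m1 + m2, (D1 + m2.degree) + (D2 + m1.degree),
      U1 * monomial m2 1 * X 0 ^ (D2 + m1.degree) + U2 * monomial m1 1 * X 0 ^ (D1 + m2.degree),
      ?_, ?_⟩
    · apply IsHomogeneous.add
      · exact (h1.mul (isHomogeneous_monomial _ rfl)).mul (isHomogeneous_X_pow _ _)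
      · have := (h2.mul (isHomogeneous_monomial (1 : ℂ) (rfl : m1.degree = _))).mul
          (isHomogeneous_X_pow (0 : Fin (n + 1)) (D1 + m2.degree))
        rwa [add_comm (D2 + m1.degree)] at this
    · have e3 : (monomial (m1 + m2) 1 : MvPolynomial (Fin (n + 1)) ℂ) =
          monomial m1 1 * monomial m2 1 := by
        rw [monomial_mul, one_mul]
      rw [e3]
      simp only [laurL_mul, laurL_add, laurL_pow, laurL_X0, one_pow, mul_one]
      rw [← e1, ← e2]
      ring
  | single d a =>
    refine ⟨Finsupp.equivFunOnFinite.symm (Fin.cons 0 fun i => (- d i).toNat), _,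
      monomial (Finsupp.equivFunOnFinite.symm (Fin.cons 0 fun i => (d i).toNat)) a,
      isHomogeneous_monomial _ rfl, ?_⟩
    rw [laurL_monomial, laurL_monomial, AddMonoidAlgebra.single_mul_single, mul_one]
    congr 1
    ext i
    simp [sh]
    omega

theorem isUnit_laurL_monomial (m : Fin (n + 1) →₀ ℕ) :
    IsUnit (laurL (monomial m (1 : ℂ))) := by
  rw [laurL_monomial]
  refine IsUnit.of_mul_eq_one (AddMonoidAlgebra.single (- sh m) 1) ?_
  rw [AddMonoidAlgebra.single_mul_single, add_neg_cancel, one_mul]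
  rfl

theorem dvd_cancel {g W : MvPolynomial (Fin (n + 1)) ℂ} (hX : ∀ i, ¬ (X i ∣ g))
    (m : Fin (n + 1) →₀ ℕ) (h : g ∣ W * monomial m 1) : g ∣ W := by
  have key : ∀ i (k : ℕ) (V : MvPolynomial (Fin (n + 1)) ℂ), g ∣ V * X i ^ k → g ∣ V := by
    intro i k
    induction k with
    | zero => intro V h; simpa using h
    | succ k ih =>
      intro V h
      apply ih
      rw [pow_succ, ← mul_assoc] at h
      obtain ⟨q, hq⟩ := h
      have hp : Prime (X i : MvPolynomial (Fin (n + 1)) ℂ) := X_prime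
      have h1 : X i ∣ g * q := ⟨V * X i ^ k, by rw [← hq]; ring⟩
      rcases hp.dvd_or_dvd h1 with h2 | ⟨q', rfl⟩
      · exact absurd h2 (hX i)
      · refine ⟨q', ?_⟩
        have h3 : X i * (V * X i ^ k) = X i * (g * q') := by
          rw [mul_comm (X i) (V * X i ^ k), hq]; ring
        exact mul_left_cancel₀ hp.ne_zero h3
  rw [monomial_eq, C_1, one_mul, Finsupp.prod_fintype _ _ (by simp)] at h
  have key2 : ∀ (s : Finset (Fin (n + 1))) (V : MvPolynomial (Fin (n + 1)) ℂ),
      g ∣ V * ∏ i ∈ s, X i ^ m i → g ∣ V := by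
    classical
    intro s
    induction s using Finset.induction_on with
    | empty => intro V h; simpa using h
    | insert a s ha ih =>
      intro V h
      rw [Finset.prod_insert ha, ← mul_assoc] at h
      exact key _ _ _ (ih _ h)
  exact key2 _ _ h

theorem rad_main (k : ℕ) (g : MvPolynomial (Fin (n + 1)) ℂ) (hg : g.IsHomogeneous k)
    (hs : Squarefree g) (hX : ∀ i, ¬ (X i ∣ g)) :
    laurL g ≠ 0 ∧ (Ideal.span {laurL g}).IsRadical := by
  refine ⟨?_, ?_⟩
  · intro h0
    apply hs.ne_zero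
    apply laurL_inj hg (isHomogeneous_zero _ _ _)
    rw [h0]
    simp [laurL]
  · rintro u ⟨N, hN⟩
    rw [Ideal.mem_span_singleton] at hN ⊢
    obtain ⟨h, hh⟩ := hN
    obtain ⟨m, D, U, hU, eU⟩ := exists_hom u
    obtain ⟨m', D', H, hH, eH⟩ := exists_hom h
    have e1 : laurL (U ^ N * monomial m' 1) = laurL (g * H * monomial m 1 ^ N) := by
      simp only [laurL_mul, laurL_pow]
      rw [← eU, ← eH, mul_pow, hh]
      ring
    have hE1 : (U ^ N * monomial m' 1).IsHomogeneous (D * N + m'.degree) :=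
      (hU.pow N).mul (isHomogeneous_monomial _ rfl)
    have hE2 : (g * H * monomial m 1 ^ N).IsHomogeneous (k + D' + m.degree * N) :=
      (hg.mul hH).mul ((isHomogeneous_monomial _ rfl).pow N)
    have e2 : U ^ N * monomial m' 1 * X 0 ^ (k + D' + m.degree * N) =
        g * H * monomial m 1 ^ N * X 0 ^ (D * N + m'.degree) := by
      apply laurL_inj (hE1.mul (isHomogeneous_X_pow _ _))
      · have := hE2.mul (isHomogeneous_X_pow (0 : Fin (n + 1)) (D * N + m'.degree))
        rwa [add_comm (k + D' + m.degree * N)] at this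
      · rw [laurL_mul, e1, laurL_mul (g * H * monomial m 1 ^ N)]
        simp only [laurL_pow, laurL_X0, one_pow, mul_one]
    have e3 : g ∣ U ^ N := by
      apply dvd_cancel hX (m' + Finsupp.single 0 (k + D' + m.degree * N))
      have e4 : (monomial (m' + Finsupp.single 0 (k + D' + m.degree * N)) 1 :
          MvPolynomial (Fin (n + 1)) ℂ) = monomial m' 1 * X 0 ^ (k + D' + m.degree * N) := by
        rw [X_pow_eq_monomial, monomial_mul, one_mul]
      rw [e4, ← mul_assoc, e2]
      exact ⟨H * monomial m 1 ^ N * X 0 ^ (D * N + m'.degree), by ring⟩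
    have e5 : g ∣ U := hs.isRadical N U e3
    obtain ⟨q, rfl⟩ := e5
    have e6 : laurL g ∣ u * laurL (monomial m 1) := by
      rw [eU, laurL_mul]; exact dvd_mul_right _ _
    exact (isUnit_laurL_monomial m).dvd_mul_right.1 e6

end Pool.Agent.Y768.KC
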